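import Mathlib

/-!
# Calculus for Module C of the covariogram problem
-/

open Filter Topology Set

namespace Pool.Agent.Helper18.Cov

section affine

variable {E F : Type*} [NormedAddCommGroup E] [NormedSpace ℝ E] [NormedAddCommGroup F]
  [NormedSpace ℝ F]

lemma differentiableAt_of_contDiffAt_two {f : F → ℝ} {x : F} (hf : ContDiffAt ℝ 2 f x) :
    DifferentiableAt ℝ f x := hf.differentiableAt (by norm_num)

lemma fderiv_comp_affine {f : F → ℝ} (L : E →L[ℝ] F) (e : F) {x : E}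
    (hf : DifferentiableAt ℝ f (L x + e)) :
    fderiv ℝ (fun x => f (L x + e)) x = (fderiv ℝ f (L x + e)).comp L := by
  have h1 : HasFDerivAt (fun x => L x + e) L x := L.hasFDerivAt.add_const e
  exact (hf.hasFDerivAt.comp x h1).fderiv

lemma fderiv2_comp_affine {f : F → ℝ} (L : E →L[ℝ] F) (e : F) {x : E}
    (hf : ContDiffAt ℝ 2 f (L x + e)) (v w : E) :
    fderiv ℝ (fderiv ℝ (fun x => f (L x + e))) x v w =
      fderiv ℝ (fderiv ℝ f) (L x + e) (L v) (L w) := by
  have hcont : ContinuousAt (fun y : E => L y + e) x := by fun_prop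
  have hev0 : ∀ᶠ z in 𝓝 (L x + e), ContDiffAt ℝ 2 f z := hf.eventually (by simp)
  have hev : (fderiv ℝ (fun x => f (L x + e))) =ᶠ[𝓝 x]
      fun y => (fderiv ℝ f (L y + e)).comp L := by
    have := hcont.eventually hev0
    filter_upwards [this] with y hy
    exact fderiv_comp_affine L e (differentiableAt_of_contDiffAt_two hy)
  rw [hev.fderiv_eq]
  have hd : DifferentiableAt ℝ (fderiv ℝ f) (L x + e) :=
    (hf.fderiv_right (m := 1) (by norm_num)).differentiableAt (by norm_num)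
  have h1 : HasFDerivAt (fun x => L x + e) L x := L.hasFDerivAt.add_const e
  have h2 : HasFDerivAt (fun y => fderiv ℝ f (L y + e))
      ((fderiv ℝ (fderiv ℝ f) (L x + e)).comp L) x := hd.hasFDerivAt.comp x h1
  have h3 : HasFDerivAt (fun y => (fderiv ℝ f (L y + e)).comp L)
      (((ContinuousLinearMap.compL ℝ E F ℝ).flip L).comp
        ((fderiv ℝ (fderiv ℝ f) (L x + e)).comp L)) x :=
    ((ContinuousLinearMap.compL ℝ E F ℝ).flip L).hasFDerivAt.comp x h2
  rw [h3.fderiv]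
  rfl

lemma contDiffAt_comp_affine {f : F → ℝ} (L : E →L[ℝ] F) (e : F) {x : E}
    (hf : ContDiffAt ℝ 2 f (L x + e)) : ContDiffAt ℝ 2 (fun x => f (L x + e)) x := by
  have h1 : ContDiffAt ℝ 2 (fun x => L x + e) x := (L.contDiff.add contDiff_const).contDiffAt
  exact hf.comp x h1

end affine

section homog

variable {F : Type*} [NormedAddCommGroup F] [NormedSpace ℝ F]

/-- Hypotheses on a positively homogeneous function. -/
structure Hom1 (f : F → ℝ) : Prop where
  smul : ∀ t : ℝ, 0 < t → ∀ y, f (t • y) = t * f y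
  reg : ContDiffOn ℝ 2 f {0}ᶜ

variable {f : F → ℝ} (hf : Hom1 f)
include hf

lemma Hom1.contDiffAt {y : F} (hy : y ≠ 0) : ContDiffAt ℝ 2 f y :=
  hf.reg.contDiffAt (isOpen_compl_singleton.mem_nhds hy)

lemma Hom1.fderiv_smul {t : ℝ} (ht : 0 < t) {y : F} (hy : y ≠ 0) :
    fderiv ℝ f (t • y) = fderiv ℝ f y := by
  have hty : t • y ≠ 0 := smul_ne_zero ht.ne' hy
  have h1 := fderiv_comp_affine (f := f) (t • ContinuousLinearMap.id ℝ F) 0 (x := y)
    (by simpa using differentiableAt_of_contDiffAt_two (hf.contDiffAt hty))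
  have h2 : (fun x => f ((t • ContinuousLinearMap.id ℝ F) x + 0)) = fun x => t • f x := by
    funext x
    simp [hf.smul t ht x]
  rw [h2] at h1
  have h3 : fderiv ℝ (fun x => t • f x) y = t • fderiv ℝ f y :=
    fderiv_fun_const_smul (differentiableAt_of_contDiffAt_two (hf.contDiffAt hy)) t
  rw [h3] at h1
  ext v
  have h4 := congrArg (fun T : F →L[ℝ] ℝ => T v) h1
  simp at h4
  rcases h4 with h4 | h4
  · exact h4.symm
  · exact absurd h4 ht.ne'

lemma Hom1.fderiv2_smul {t : ℝ} (ht : 0 < t) {y : F} (hy : y ≠ 0) (v w : F) :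
    fderiv ℝ (fderiv ℝ f) (t • y) v w = t⁻¹ * fderiv ℝ (fderiv ℝ f) y v w := by
  have hty : t • y ≠ 0 := smul_ne_zero ht.ne' hy
  -- the derivative is homogeneous of degree 0
  have hev : (fun z => fderiv ℝ f (t • z)) =ᶠ[𝓝 y] fderiv ℝ f := by
    filter_upwards [isOpen_compl_singleton.mem_nhds hy] with z hz
    exact hf.fderiv_smul ht hz
  have hd : DifferentiableAt ℝ (fderiv ℝ f) (t • y) :=
    ((hf.contDiffAt hty).fderiv_right (m := 1) (by norm_num)).differentiableAt (by norm_num)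
  have h1 : HasFDerivAt (fun z : F => t • z) (t • ContinuousLinearMap.id ℝ F) y :=
    (hasFDerivAt_id y).const_smul t
  have h2 : HasFDerivAt (fun z => fderiv ℝ f (t • z))
      ((fderiv ℝ (fderiv ℝ f) (t • y)).comp (t • ContinuousLinearMap.id ℝ F)) y :=
    hd.hasFDerivAt.comp y h1
  have h3 := h2.fderiv
  rw [hev.fderiv_eq] at h3
  rw [h3]
  simp
  field_simp

lemma Hom1.fderiv2_self {y : F} (hy : y ≠ 0) (w : F) :
    fderiv ℝ (fderiv ℝ f) y y w = 0 := by
  have hd : DifferentiableAt ℝ (fderiv ℝ f) y :=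
    ((hf.contDiffAt hy).fderiv_right (m := 1) (by norm_num)).differentiableAt (by norm_num)
  have h1 : HasDerivAt (fun t : ℝ => t • y) ((1 : ℝ) • y) 1 := by
    simpa using (hasDerivAt_id (1 : ℝ)).smul_const y
  have hd' : HasFDerivAt (fderiv ℝ f) (fderiv ℝ (fderiv ℝ f) y) ((1 : ℝ) • y) := by
    simpa using hd.hasFDerivAt
  have h2 : HasDerivAt (fun t : ℝ => fderiv ℝ f (t • y)) (fderiv ℝ (fderiv ℝ f) y ((1 : ℝ) • y)) 1 :=
    hd'.comp_hasDerivAt (1 : ℝ) h1
  have hev : (fun t : ℝ => fderiv ℝ f (t • y)) =ᶠ[𝓝 1] fun _ => fderiv ℝ f y := by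
    filter_upwards [isOpen_Ioi.mem_nhds (show (1 : ℝ) ∈ Ioi (0 : ℝ) by norm_num)] with t ht
    exact hf.fderiv_smul ht hy
  have h3 : HasDerivAt (fun t : ℝ => fderiv ℝ f (t • y)) 0 1 :=
    (hasDerivAt_const (1 : ℝ) (fderiv ℝ f y)).congr_of_eventuallyEq hev
  have h4 := h2.unique h3
  rw [one_smul] at h4
  rw [h4]; rfl

lemma Hom1.fderiv2_symm {y : F} (hy : y ≠ 0) (v w : F) :
    fderiv ℝ (fderiv ℝ f) y v w = fderiv ℝ (fderiv ℝ f) y w v := by
  have := (hf.contDiffAt hy).isSymmSndFDerivAt (by simp)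
  exact this v w

lemma Hom1.continuousOn_fderiv2 :
    ContinuousOn (fderiv ℝ (fderiv ℝ f)) {0}ᶜ := by
  intro y hy
  have h : ContDiffAt ℝ 1 (fderiv ℝ f) y :=
    (hf.contDiffAt hy).fderiv_right (m := 1) (by norm_num)
  have h' : ContDiffAt ℝ 0 (fderiv ℝ (fderiv ℝ f)) y := h.fderiv_right (m := 0) (by norm_num)
  exact h'.continuousAt.continuousWithinAt

end homog

end Pool.Agent.Helper18.Cov
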