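import Mathlib

/-!
# Linear algebra for Module C of the covariogram problem
-/

namespace Pool.Agent.Helper18.Cov

open Matrix

/-- Determinant of `c D' + μ μᵀ` where `D'` has zero first row and column. -/
lemma det_block_add {d : ℕ} (D : Matrix (Fin (d + 1)) (Fin (d + 1)) ℝ)
    (h0 : ∀ j, D 0 j = 0) (h0' : ∀ i, D i 0 = 0) (μ : Fin (d + 1) → ℝ) :
    (D + vecMulVec μ μ).det = μ 0 ^ 2 * (D.submatrix Fin.succ Fin.succ).det := by
  by_cases hμ : μ 0 = 0
  · rw [Matrix.det_eq_zero_of_row_eq_zero (0 : Fin (d + 1))]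
    · simp [hμ]
    · intro j
      simp [Matrix.add_apply, h0, vecMulVec_apply, hμ]
  · set B : Matrix (Fin (d + 1)) (Fin (d + 1)) ℝ :=
      Matrix.of fun i j => if i = 0 then μ 0 * μ j else D i j with hB
    have hdet : (D + vecMulVec μ μ).det = B.det := by
      refine Matrix.det_eq_of_forall_row_eq_smul_add_const
        (fun i => if i = 0 then 0 else μ i / μ 0) 0 (by simp) ?_
      intro i j
      by_cases hi : i = 0
      · subst hi
        simp [hB, h0, vecMulVec_apply]
      · simp only [Matrix.add_apply, vecMulVec_apply, hB, Matrix.of_apply, hi, if_false, if_true]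
        field_simp
    rw [hdet, Matrix.det_succ_column_zero, Fin.sum_univ_succ]
    have hz : ∀ i : Fin d, (-1 : ℝ) ^ ((i.succ : Fin (d + 1)) : ℕ) * B i.succ 0 *
        (B.submatrix (i.succ).succAbove Fin.succ).det = 0 := by
      intro i
      have : B i.succ 0 = 0 := by simp [hB, h0']
      rw [this]; ring
    rw [Finset.sum_eq_zero (fun i _ => hz i)]
    have hsub : B.submatrix (Fin.succAbove 0) Fin.succ = D.submatrix Fin.succ Fin.succ := by
      ext i j
      simp [hB]
    rw [hsub]
    have hB00 : B 0 0 = μ 0 * μ 0 := by simp [hB]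
    rw [hB00]
    norm_num
    left
    ring

/-- The main identity: a symmetric matrix killing `y`, plus a rank one matrix. -/
lemma det_kill_add {d : ℕ} (M : Matrix (Fin (d + 1)) (Fin (d + 1)) ℝ) (hs : ∀ i j, M i j = M j i)
    (y : Fin (d + 1) → ℝ) (hy : M.mulVec y = 0) (ν : Fin (d + 1) → ℝ) :
    y 0 ^ 2 * (M + vecMulVec ν ν).det =
      (ν ⬝ᵥ y) ^ 2 * (M.submatrix Fin.succ Fin.succ).det := by
  set P : Matrix (Fin (d + 1)) (Fin (d + 1)) ℝ := (1 : Matrix _ _ ℝ).updateCol 0 y with hP
  have hPdet : P.det = y 0 := by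
    have := Matrix.cramer_apply (1 : Matrix (Fin (d + 1)) (Fin (d + 1)) ℝ) y 0
    rw [Matrix.cramer_one] at this
    rw [hP, ← this]; rfl
  have hy' : ∀ i, ∑ k, M i k * y k = 0 := fun i => by
    have := congrFun hy i
    simpa [Matrix.mulVec, dotProduct] using this
  -- columns of `M * P`
  have hMP0 : ∀ i, (M * P) i 0 = 0 := by
    intro i
    rw [Matrix.mul_apply]
    simp only [hP, Matrix.updateCol_self]
    exact hy' i
  have hMPs : ∀ i (j : Fin d), (M * P) i j.succ = M i j.succ := by
    intro i j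
    rw [Matrix.mul_apply]
    simp only [hP]
    rw [Finset.sum_eq_single j.succ]
    · rw [Matrix.updateCol_ne (Fin.succ_ne_zero j)]; simp
    · intro b _ hb
      rw [Matrix.updateCol_ne (Fin.succ_ne_zero j)]; simp [hb]
    · simp
  set D := Pᵀ * M * P with hD
  have hDapp : ∀ i j, D i j = ∑ k, P k i * (M * P) k j := by
    intro i j
    rw [hD, Matrix.mul_assoc, Matrix.mul_apply]
    simp [Matrix.transpose_apply]
  have hD0' : ∀ i, D i 0 = 0 := by
    intro i
    rw [hDapp]
    simp [hMP0]
  have hDs : ∀ i j : Fin d, D i.succ j.succ = M i.succ j.succ := by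
    intro i j
    rw [hDapp, Finset.sum_eq_single i.succ]
    · rw [hMPs, hP, Matrix.updateCol_ne (Fin.succ_ne_zero i)]; simp
    · intro b _ hb
      rw [hP, Matrix.updateCol_ne (Fin.succ_ne_zero i)]; simp [hb]
    · simp
  have hD0 : ∀ j, D 0 j = 0 := by
    intro j
    refine Fin.cases ?_ ?_ j
    · exact hD0' 0
    · intro j
      rw [hDapp]
      simp only [hMPs]
      simp only [hP, Matrix.updateCol_self]
      have := hy' j.succ
      rw [← this]
      refine Finset.sum_congr rfl fun k _ => ?_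
      rw [hs k j.succ]; ring
  set μ : Fin (d + 1) → ℝ := Pᵀ.mulVec ν with hμ
  have hμ0 : μ 0 = ν ⬝ᵥ y := by
    rw [hμ]
    simp only [Matrix.mulVec, dotProduct, Matrix.transpose_apply, hP, Matrix.updateCol_self]
    exact Finset.sum_congr rfl fun k _ => by ring
  have hkey : Pᵀ * (M + vecMulVec ν ν) * P = D + vecMulVec μ μ := by
    rw [Matrix.mul_add, Matrix.add_mul, hD]
    congr 1
    rw [hμ, Matrix.mul_vecMulVec, Matrix.vecMulVec_mul]
    congr 1
    rw [Matrix.mulVec_transpose]
  have hdet := congrArg Matrix.det hkey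
  rw [Matrix.det_mul, Matrix.det_mul, Matrix.det_transpose, hPdet, det_block_add D hD0 hD0', hμ0]
    at hdet
  have hsub : D.submatrix Fin.succ Fin.succ = M.submatrix Fin.succ Fin.succ := by
    ext i j
    simp [hDs]
  rw [hsub] at hdet
  rw [← hdet]; ring

end Pool.Agent.Helper18.Cov
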