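import Pool.Agent.Helper77.Cov.Defs
import Pool.Agent.Helper18.Cov.ChartLA
import Pool.Agent.Helper18.Cov.ChartCalc

/-!
# Module C of the covariogram problem: the charts
-/

open MeasureTheory Set Filter Topology

namespace Pool.Agent.Helper18.Cov

open Pool.Agent.Helper77.Cov

/-- The chart `x ↦ ((x 1, …, x d), x 0)` as a linear equivalence. -/
noncomputable def chartLin (d : ℕ) : V (d + 1) ≃ₗ[ℝ] (V d × ℝ) where
  toFun x := (WithLp.toLp 2 (fun i => x i.succ), x 0)
  invFun p := WithLp.toLp 2 (Fin.cons p.2 (fun i => p.1 i))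
  map_add' x y := by
    ext <;> simp
  map_smul' c x := by
    ext <;> simp
  left_inv x := by
    ext i
    refine Fin.cases ?_ (fun i => ?_) i <;> simp
  right_inv p := by
    ext <;> simp

/-- The chart as a continuous linear equivalence. -/
noncomputable def chart (d : ℕ) : V (d + 1) ≃L[ℝ] (V d × ℝ) :=
  (chartLin d).toContinuousLinearEquiv

lemma chart_apply (d : ℕ) (x : V (d + 1)) :
    chart d x = (WithLp.toLp 2 (fun i => x i.succ), x 0) := rfl

lemma chart_symm_apply (d : ℕ) (p : V d × ℝ) :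
    (chart d).symm p = WithLp.toLp 2 (Fin.cons p.2 (fun i => p.1 i)) := rfl

lemma chart_measurePreserving (d : ℕ) : MeasurePreserving (chart d) volume volume := by
  have h1 := EuclideanSpace.volume_preserving_symm_measurableEquiv_toLp (Fin (d + 1))
  have h2 := MeasureTheory.volume_preserving_piFinSuccAbove (fun _ : Fin (d + 1) => ℝ) 0
  have h3 : MeasurePreserving (Prod.swap : ℝ × (Fin d → ℝ) → (Fin d → ℝ) × ℝ) volume volume :=
    Measure.measurePreserving_swap
  have h4 : MeasurePreserving (MeasurableEquiv.toLp 2 (Fin d → ℝ)) volume volume :=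
    (EuclideanSpace.volume_preserving_symm_measurableEquiv_toLp (Fin d)).symm
  have h5 : MeasurePreserving (Prod.map (MeasurableEquiv.toLp 2 (Fin d → ℝ)) (id : ℝ → ℝ))
      volume volume := h4.prod (MeasurePreserving.id volume)
  have h6 := h5.comp (h3.comp (h2.comp h1))
  have he : (chart d : V (d + 1) → V d × ℝ) =
      (Prod.map (MeasurableEquiv.toLp 2 (Fin d → ℝ)) (id : ℝ → ℝ)) ∘ Prod.swap ∘
        (MeasurableEquiv.piFinSuccAbove (fun _ : Fin (d + 1) => ℝ) 0) ∘
          (MeasurableEquiv.toLp 2 (Fin (d + 1) → ℝ)).symm := by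
    funext x
    rw [chart_apply]
    ext <;> rfl
  rw [he]
  exact h6

lemma chart_inner (d : ℕ) (x y : V (d + 1)) :
    inner ℝ x y = inner ℝ (chart d x).1 (chart d y).1 + (chart d x).2 * (chart d y).2 := by
  rw [PiLp.inner_apply, Fin.sum_univ_succ, PiLp.inner_apply]
  simp [chart_apply]
  ring

lemma chart_isBody {d : ℕ} {K : Set (V (d + 1))} (hK : IsBody K) : IsBody (chart d '' K) where
  compact := hK.compact.image (chart d).continuous
  convex := hK.convex.linear_image (chart d : V (d + 1) →ₗ[ℝ] V d × ℝ)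
  interior_nonempty := by
    have := (chart d).toHomeomorph.image_interior K
    have h2 : (interior ((chart d).toHomeomorph '' K)).Nonempty := by
      rw [← this]
      exact hK.interior_nonempty.image _
    exact h2

lemma suppP_chart {d : ℕ} (K : Set (V (d + 1))) (u : V d × ℝ) :
    suppP (chart d '' K) u = supp K ((chart d).symm u) := by
  unfold suppP supp
  rw [Set.image_image]
  congr 1
  refine Set.image_congr' fun x => ?_
  rw [chart_inner]
  simp

lemma Hup_chart {d : ℕ} (K : Set (V (d + 1))) (σ : V d) :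
    Hup (chart d '' K) σ = supp K ((chart d).symm (σ, 1)) := suppP_chart K _

lemma Hdn_chart {d : ℕ} (K : Set (V (d + 1))) (σ : V d) :
    Hdn (chart d '' K) σ = supp K ((chart d).symm (-σ, -1)) := suppP_chart K _

/-- The linear part of the chart. -/
noncomputable def Lc (d : ℕ) : V d →L[ℝ] V (d + 1) :=
  ((chart d).symm : (V d × ℝ) →L[ℝ] V (d + 1)).comp (ContinuousLinearMap.inl ℝ (V d) ℝ)

/-- The translation part of the chart. -/
noncomputable def ec (d : ℕ) : V (d + 1) := (chart d).symm (0, 1)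

lemma chart_symm_one {d : ℕ} (σ : V d) : (chart d).symm (σ, 1) = Lc d σ + ec d := by
  have : ((σ, 1) : V d × ℝ) = (σ, 0) + (0, 1) := by simp
  rw [this, map_add]; rfl

lemma chart_symm_neg_one {d : ℕ} (σ : V d) :
    (chart d).symm (-σ, -1) = (-(Lc d)) σ + (-(ec d)) := by
  have : ((-σ, -1) : V d × ℝ) = -(σ, 1) := by simp
  rw [this, map_neg, chart_symm_one]
  simp [add_comm]

lemma Hup_eq {d : ℕ} (K : Set (V (d + 1))) :
    Hup (chart d '' K) = fun σ => supp K (Lc d σ + ec d) := by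
  funext σ; rw [Hup_chart, chart_symm_one]

lemma Hdn_eq {d : ℕ} (K : Set (V (d + 1))) :
    Hdn (chart d '' K) = fun σ => supp K ((-(Lc d)) σ + (-(ec d))) := by
  funext σ; rw [Hdn_chart, chart_symm_neg_one]

lemma chart_point {d : ℕ} (σ : V d) : chart d (Lc d σ + ec d) = (σ, 1) := by
  rw [← chart_symm_one]; simp

lemma chart_Lc {d : ℕ} (v : V d) : chart d (Lc d v) = (v, 0) := by
  simp [Lc]

lemma point_ne_zero {d : ℕ} (σ : V d) : Lc d σ + ec d ≠ 0 := by
  intro h
  have h2 := chart_point σ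
  rw [h, map_zero] at h2
  have := congrArg Prod.snd h2
  simp at this

lemma point_neg {d : ℕ} (σ : V d) : (-(Lc d)) σ + (-(ec d)) = -(Lc d σ + ec d) := by
  simp [add_comm]

lemma point_neg_ne_zero {d : ℕ} (σ : V d) : (-(Lc d)) σ + (-(ec d)) ≠ 0 := by
  rw [point_neg]; exact neg_ne_zero.2 (point_ne_zero σ)

lemma Lc_not_mem_span {d : ℕ} (σ v : V d) (hv : v ≠ 0) (c : ℝ) (hc : c ≠ 0) :
    c • Lc d v ∉ Submodule.span ℝ {Lc d σ + ec d} := by
  intro h
  rw [Submodule.mem_span_singleton] at h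
  obtain ⟨a, ha⟩ := h
  have h2 := congrArg (chart d) ha
  rw [map_smul, map_smul, chart_point, chart_Lc] at h2
  have h3 : a = 0 := by
    have := congrArg Prod.snd h2
    simpa using this
  have h4 : a • σ = c • v := congrArg Prod.fst h2
  rw [h3, zero_smul] at h4
  exact hv ((smul_eq_zero.1 h4.symm).resolve_left hc)

lemma posC2_up {d : ℕ} {K : Set (V (d + 1))} (hr : ContDiffOn ℝ 2 (supp K) {0}ᶜ)
    (hp : ∀ y, y ≠ 0 → ∀ v, v ∉ Submodule.span ℝ {y} →
      0 < fderiv ℝ (fderiv ℝ (supp K)) y v v) : PosC2 (Hup (chart d '' K)) := by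
  have hca : ∀ y : V (d + 1), y ≠ 0 → ContDiffAt ℝ 2 (supp K) y := fun y hy =>
    hr.contDiffAt (isOpen_compl_singleton.mem_nhds hy)
  rw [Hup_eq]
  refine ⟨contDiff_iff_contDiffAt.2 fun σ => contDiffAt_comp_affine _ _ (hca _ (point_ne_zero σ)),
    fun σ v hv => ?_⟩
  rw [fderiv2_comp_affine _ _ (hca _ (point_ne_zero σ))]
  have := Lc_not_mem_span σ v hv 1 one_ne_zero
  rw [one_smul] at this
  exact hp _ (point_ne_zero σ) _ this

lemma posC2_dn {d : ℕ} {K : Set (V (d + 1))} (hr : ContDiffOn ℝ 2 (supp K) {0}ᶜ)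
    (hp : ∀ y, y ≠ 0 → ∀ v, v ∉ Submodule.span ℝ {y} →
      0 < fderiv ℝ (fderiv ℝ (supp K)) y v v) : PosC2 (Hdn (chart d '' K)) := by
  have hca : ∀ y : V (d + 1), y ≠ 0 → ContDiffAt ℝ 2 (supp K) y := fun y hy =>
    hr.contDiffAt (isOpen_compl_singleton.mem_nhds hy)
  rw [Hdn_eq]
  refine ⟨contDiff_iff_contDiffAt.2 fun σ =>
    contDiffAt_comp_affine _ _ (hca _ (point_neg_ne_zero σ)), fun σ v hv => ?_⟩
  rw [fderiv2_comp_affine _ _ (hca _ (point_neg_ne_zero σ))]
  refine hp _ (point_neg_ne_zero σ) _ ?_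
  have := Lc_not_mem_span σ v hv 1 one_ne_zero
  rw [one_smul] at this
  rw [point_neg]
  intro h
  rw [Submodule.mem_span_singleton] at h
  obtain ⟨a, ha⟩ := h
  refine this (Submodule.mem_span_singleton.2 ⟨a, ?_⟩)
  have h2 := congrArg Neg.neg ha
  simpa using h2

/-! ### Homogeneity of the support function -/

open Pointwise in
lemma supp_hom {n : ℕ} (K : Set (V n)) (t : ℝ) (ht : 0 < t) (y : V n) :
    supp K (t • y) = t * supp K y := by
  unfold supp
  have : (fun x => inner ℝ (t • y) x) '' K = t • ((fun x => inner ℝ y x) '' K) := by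
    ext r
    simp only [Set.mem_image, Set.mem_smul_set]
    constructor
    · rintro ⟨x, hx, rfl⟩
      exact ⟨_, ⟨x, hx, rfl⟩, by simp [inner_smul_left]⟩
    · rintro ⟨_, ⟨x, hx, rfl⟩, rfl⟩
      exact ⟨x, hx, by simp [inner_smul_left]⟩
  rw [this, Real.sSup_smul_of_nonneg ht.le]
  rfl

lemma hom1_supp {n : ℕ} {K : Set (V n)} (hr : ContDiffOn ℝ 2 (supp K) {0}ᶜ) :
    Hom1 (supp K) := ⟨supp_hom K, hr⟩

lemma hess_symm {n : ℕ} {f : V n → ℝ} (hf : Hom1 f) {y : V n} (hy : y ≠ 0) (i j : Fin n) :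
    hess f y i j = hess f y j i := by
  simp only [hess, Matrix.of_apply]
  exact hf.fderiv2_symm hy _ _

lemma clm_apply_sum {n : ℕ} (T : V n →L[ℝ] ℝ) (y : V n) :
    T y = ∑ j, T (EuclideanSpace.single j 1) * y j := by
  have hsum : y = ∑ j, y j • EuclideanSpace.single j (1 : ℝ) := by
    ext k
    simp [Finset.sum_apply, Pi.single_apply]
  conv_lhs => rw [hsum, map_sum]
  exact Finset.sum_congr rfl fun j _ => by rw [map_smul, smul_eq_mul, mul_comm]

lemma hess_mulVec {n : ℕ} {f : V n → ℝ} (hf : Hom1 f) {y : V n} (hy : y ≠ 0) :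
    (hess f y).mulVec y = 0 := by
  funext i
  simp only [Matrix.mulVec, dotProduct, hess, Matrix.of_apply, Pi.zero_apply]
  rw [← clm_apply_sum (fderiv ℝ (fderiv ℝ f) y (EuclideanSpace.single i 1)) y,
    hf.fderiv2_symm hy, hf.fderiv2_self hy]

lemma hess_smul {n : ℕ} {f : V n → ℝ} (hf : Hom1 f) {y : V n} (hy : y ≠ 0) {t : ℝ} (ht : 0 < t) :
    hess f (t • y) = t⁻¹ • hess f y := by
  ext i j
  simp only [hess, Matrix.of_apply, Matrix.smul_apply, smul_eq_mul]
  exact hf.fderiv2_smul ht hy _ _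

lemma Lc_single {d : ℕ} (i : Fin d) :
    Lc d (EuclideanSpace.single i 1) = EuclideanSpace.single i.succ (1 : ℝ) := by
  apply (chart d).injective
  rw [chart_Lc, chart_apply]
  ext j
  · simp [Fin.succ_inj]
  · simp [Fin.succ_ne_zero]

lemma minor_up {d : ℕ} {K : Set (V (d + 1))} (hf : Hom1 (supp K)) (σ : V d) :
    (hess (supp K) (Lc d σ + ec d)).submatrix Fin.succ Fin.succ = hess (Hup (chart d '' K)) σ := by
  ext i j
  rw [Hup_eq]
  simp only [hess, Matrix.of_apply, Matrix.submatrix_apply]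
  rw [fderiv2_comp_affine _ _ (hf.contDiffAt (point_ne_zero σ)), Lc_single, Lc_single]

lemma minor_dn {d : ℕ} {K : Set (V (d + 1))} (hf : Hom1 (supp K)) (σ : V d) :
    (hess (supp K) (-(Lc d σ + ec d))).submatrix Fin.succ Fin.succ =
      hess (Hdn (chart d '' K)) σ := by
  ext i j
  rw [Hdn_eq]
  simp only [hess, Matrix.of_apply, Matrix.submatrix_apply]
  rw [fderiv2_comp_affine _ _ (hf.contDiffAt (point_neg_ne_zero σ)), point_neg]
  simp [Lc_single]

lemma chart_eq_of {d : ℕ} (y : V (d + 1)) (hy : y 0 ≠ 0) :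
    y = y 0 • (Lc d ((y 0)⁻¹ • (chart d y).1) + ec d) := by
  apply (chart d).injective
  rw [map_smul, chart_point]
  ext i
  · simp [hy]
  · simp [chart_apply]

lemma minor_det_eq {d : ℕ} {K H : Set (V (d + 1))} (hK : Hom1 (supp K)) (hH : Hom1 (supp H))
    (hup : ∀ σ, (hess (Hup (chart d '' K)) σ).det = (hess (Hup (chart d '' H)) σ).det)
    (hdn : ∀ σ, (hess (Hdn (chart d '' K)) σ).det = (hess (Hdn (chart d '' H)) σ).det)
    (y : V (d + 1)) (hy : y 0 ≠ 0) :
    ((hess (supp K) y).submatrix Fin.succ Fin.succ).det =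
      ((hess (supp H) y).submatrix Fin.succ Fin.succ).det := by
  set σ := (y 0)⁻¹ • (chart d y).1 with hσ
  have hy1 := chart_eq_of y hy
  rcases lt_or_gt_of_ne hy with h | h
  · have hy2 : y = (-(y 0)) • (-(Lc d σ + ec d)) := by
      rw [neg_smul_neg]; exact hy1
    have key : ∀ {K : Set (V (d + 1))}, Hom1 (supp K) →
        ((hess (supp K) y).submatrix Fin.succ Fin.succ).det =
          ((-(y 0))⁻¹) ^ d * (hess (Hdn (chart d '' K)) σ).det := by
      intro K hK
      have h3 : hess (supp K) y = (-(y 0))⁻¹ • hess (supp K) (-(Lc d σ + ec d)) := by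
        conv_lhs => rw [hy2]
        exact hess_smul hK (neg_ne_zero.2 (point_ne_zero σ)) (by linarith)
      rw [h3, Matrix.submatrix_smul]
      simp only [Pi.smul_apply]
      rw [Matrix.det_smul, minor_dn hK]
      simp
    rw [key hK, key hH, hdn]
  · have key : ∀ {K : Set (V (d + 1))}, Hom1 (supp K) →
        ((hess (supp K) y).submatrix Fin.succ Fin.succ).det =
          ((y 0)⁻¹) ^ d * (hess (Hup (chart d '' K)) σ).det := by
      intro K hK
      have h3 : hess (supp K) y = (y 0)⁻¹ • hess (supp K) (Lc d σ + ec d) := by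
        conv_lhs => rw [hy1]
        exact hess_smul hK (point_ne_zero σ) h
      rw [h3, Matrix.submatrix_smul]
      simp only [Pi.smul_apply]
      rw [Matrix.det_smul, minor_up hK]
      simp
    rw [key hK, key hH, hup]

lemma det_eq_of_ne {d : ℕ} {K H : Set (V (d + 1))} (hK : Hom1 (supp K)) (hH : Hom1 (supp H))
    (hup : ∀ σ, (hess (Hup (chart d '' K)) σ).det = (hess (Hup (chart d '' H)) σ).det)
    (hdn : ∀ σ, (hess (Hdn (chart d '' K)) σ).det = (hess (Hdn (chart d '' H)) σ).det)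
    (y : V (d + 1)) (hy : y 0 ≠ 0) (c : ℝ) (ν : Fin (d + 1) → ℝ) :
    (c • hess (supp K) y + Matrix.vecMulVec ν ν).det =
      (c • hess (supp H) y + Matrix.vecMulVec ν ν).det := by
  have hy0 : y ≠ 0 := by
    intro h; apply hy; rw [h]; simp
  have key : ∀ {K : Set (V (d + 1))}, Hom1 (supp K) →
      y 0 ^ 2 * (c • hess (supp K) y + Matrix.vecMulVec ν ν).det =
        (ν ⬝ᵥ y) ^ 2 * (c ^ d * ((hess (supp K) y).submatrix Fin.succ Fin.succ).det) := by
    intro K hK
    have h1 := det_kill_add (c • hess (supp K) y)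
      (fun i j => by rw [Matrix.smul_apply, Matrix.smul_apply, hess_symm hK hy0]) y
      (by rw [Matrix.smul_mulVec, hess_mulVec hK hy0, smul_zero]) ν
    rw [h1, Matrix.submatrix_smul]
    simp only [Pi.smul_apply]
    rw [Matrix.det_smul]
    simp
  have h2 := key hK
  rw [minor_det_eq hK hH hup hdn y hy, ← key hH] at h2
  exact mul_left_cancel₀ (pow_ne_zero 2 hy) h2

lemma continuousAt_det {n : ℕ} {f : V n → ℝ} (hf : Hom1 f) {y : V n} (hy : y ≠ 0) (c : ℝ)
    (ν : Fin n → ℝ) :
    ContinuousAt (fun z => (c • hess f z + Matrix.vecMulVec ν ν).det) y := by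
  have hc : ContinuousAt (fderiv ℝ (fderiv ℝ f)) y :=
    hf.continuousOn_fderiv2.continuousAt (isOpen_compl_singleton.mem_nhds hy)
  have hM : ContinuousAt (fun z => c • hess f z + Matrix.vecMulVec ν ν) y := by
    refine ContinuousAt.add (ContinuousAt.const_smul ?_ c) continuousAt_const
    refine continuousAt_pi.2 fun i => continuousAt_pi.2 fun j => ?_
    exact (hc.clm_apply continuousAt_const).clm_apply continuousAt_const
  exact (Continuous.matrix_det continuous_id).continuousAt.comp hM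

lemma det_eq {d : ℕ} {K H : Set (V (d + 1))} (hK : Hom1 (supp K)) (hH : Hom1 (supp H))
    (hup : ∀ σ, (hess (Hup (chart d '' K)) σ).det = (hess (Hup (chart d '' H)) σ).det)
    (hdn : ∀ σ, (hess (Hdn (chart d '' K)) σ).det = (hess (Hdn (chart d '' H)) σ).det)
    (y : V (d + 1)) (hy : y ≠ 0) (c : ℝ) (ν : Fin (d + 1) → ℝ) :
    (c • hess (supp K) y + Matrix.vecMulVec ν ν).det =
      (c • hess (supp H) y + Matrix.vecMulVec ν ν).det := by
  by_cases hy0 : y 0 = 0
  · have hγ : Tendsto (fun t : ℝ => y + t • ec d) (𝓝[≠] 0) (𝓝 y) := by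
      have : ContinuousAt (fun t : ℝ => y + t • ec d) 0 := by fun_prop
      have h2 : Tendsto (fun t : ℝ => y + t • ec d) (𝓝 0) (𝓝 y) := by
        simpa [ContinuousAt] using this
      exact h2.mono_left nhdsWithin_le_nhds
    have h1 := (continuousAt_det hK hy c ν).tendsto.comp hγ
    have h2 := (continuousAt_det hH hy c ν).tendsto.comp hγ
    refine tendsto_nhds_unique h1 (h2.congr' ?_)
    filter_upwards [self_mem_nhdsWithin] with t ht
    have ht' : (y + t • ec d) 0 ≠ 0 := by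
      have : (y + t • ec d) 0 = t := by
        simp [hy0, ec, chart_symm_apply]
      rw [this]; exact ht
    exact (det_eq_of_ne hK hH hup hdn _ ht' c ν).symm
  · exact det_eq_of_ne hK hH hup hdn y hy0 c ν

/-- **Module C** (charts): there is a linear, measure preserving identification
`V (d+1) ≃ V d × ℝ` compatible with the inner products and transporting bodies, support functions,
their regularity and the determinant condition. -/
theorem exists_chart (d : ℕ) : ∃ Ψ : V (d + 1) ≃L[ℝ] (V d × ℝ),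
    MeasurePreserving Ψ volume volume ∧
    (∀ x y, inner ℝ x y = inner ℝ (Ψ x).1 (Ψ y).1 + (Ψ x).2 * (Ψ y).2) ∧
    -- transport of bodies and support functions
    (∀ K : Set (V (d + 1)), IsBody K → IsBody (Ψ '' K)) ∧
    (∀ (K : Set (V (d + 1))) (σ : V d), Hup (Ψ '' K) σ = supp K (Ψ.symm (σ, 1))) ∧
    (∀ (K : Set (V (d + 1))) (σ : V d), Hdn (Ψ '' K) σ = supp K (Ψ.symm (-σ, -1))) ∧
    -- regularity of the charts
    (∀ K : Set (V (d + 1)), ContDiffOn ℝ 2 (supp K) {0}ᶜ →
      (∀ y, y ≠ 0 → ∀ v, v ∉ Submodule.span ℝ {y} → 0 < fderiv ℝ (fderiv ℝ (supp K)) y v v) →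
      PosC2 (Hup (Ψ '' K)) ∧ PosC2 (Hdn (Ψ '' K))) ∧
    -- the determinant condition of Module D
    (∀ K H : Set (V (d + 1)), IsBody K → IsBody H → ContDiffOn ℝ 2 (supp K) {0}ᶜ →
      ContDiffOn ℝ 2 (supp H) {0}ᶜ →
      (∀ σ, (hess (Hup (Ψ '' K)) σ).det = (hess (Hup (Ψ '' H)) σ).det) →
      (∀ σ, (hess (Hdn (Ψ '' K)) σ).det = (hess (Hdn (Ψ '' H)) σ).det) →
      ∀ y, y ≠ 0 → ∀ c : ℝ, 0 < c → ∀ ν : Fin (d + 1) → ℝ,
        (c • hess (supp K) y + Matrix.vecMulVec ν ν).det =
          (c • hess (supp H) y + Matrix.vecMulVec ν ν).det) :=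
  ⟨chart d, chart_measurePreserving d, chart_inner d, fun _ hK => chart_isBody hK, Hup_chart,
    Hdn_chart, fun _ hr hp => ⟨posC2_up hr hp, posC2_dn hr hp⟩,
    fun _ _ _ _ hrK hrH hup hdn y hy c _ ν =>
      det_eq (hom1_supp hrK) (hom1_supp hrH) hup hdn y hy c ν⟩

end Pool.Agent.Helper18.Cov
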